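import Pool.Agent.H266Z.MR.LevA
import Pool.Agent.H266Z.MR.LevB
import Pool.Agent.H266Z.MR.Cnt
import Pool.Agent.H376R2.MR.TpartA

set_option autoImplicit false

namespace Pool.Agent.H266Z.MR

open Finset Filter Pool.Agent.H376R2.MR Pool.Agent.H970R2.X

theorem stpart_of (sg : ℕ → ℤ) (P : ℕ → Prop) (g : ℕ → ℤ)
    (lev_zero : ∃ C : ℝ, 0 < C ∧ ∀ α : ℝ, 0 < α → α ≤ 1 → ∃ L₀ : ℕ, ∀ L : ℕ, L₀ ≤ L →
      ∀ (Y : ℝ) (K : ℕ), Real.exp (4 * (L : ℝ) ^ 2) ≤ Y → 1 ≤ K →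
      (K : ℝ) * Real.exp ((L : ℝ) ^ 2) ≤ Y →
      (open scoped Classical in
        ∑ k ∈ (FK K).filter (fun k => Smjs sg P L α 0 k), ‖GGg g Y k‖ ^ 2) ≤ C / Real.log L)
    (lev_succ : ∃ C : ℝ, 0 < C ∧ ∀ α : ℝ, 0 < α → α ≤ 1 → ∃ L₀ : ℕ, ∀ L : ℕ, L₀ ≤ L →
      ∀ (j : ℕ) (Y : ℝ) (K : ℕ), Real.exp (4 * (LL L (j + 1) : ℝ) ^ 2) ≤ Y → 1 ≤ K → (K : ℝ) ≤ Y →
      (open scoped Classical in
        ∑ k ∈ (FK K).filter (fun k => Smjs sg P L α (j + 1) k ∧ ¬ Smjs sg P L α j k), ‖GGg g Y k‖ ^ 2) ≤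
        C / (3 ^ (j + 1) * Real.log L))
    (cnt : ∀ α : ℝ, 0 < α → α ≤ 1 → ∃ L₀ : ℕ, ∀ L : ℕ, L₀ ≤ L → ∃ Y₀ : ℝ, ∀ Y : ℝ, Y₀ ≤ Y →
      ∀ j K : ℕ, (LL L j : ℝ) ^ 4 ≤ Real.log Y → Real.log Y < (LL L (j + 1) : ℝ) ^ 4 →
      (K : ℝ) ≤ Y →
      (open scoped Classical in
        (((FK K).filter (fun k => ¬ Smjs sg P L α j k)).card : ℝ)) ≤ Y ^ (4 * α))
    {α η : ℝ} (hα : 0 < α) (hη : 0 < η) : ∃ h : ℝ, 1 ≤ h ∧ ∃ Y₀ : ℝ, ∀ Y : ℝ, Y₀ ≤ Y →
    ∃ U : Finset ℤ, (U.card : ℝ) ≤ Y ^ α ∧ ∑ k ∈ FK ⌊Y / h⌋₊ \ U, ‖GGg g Y k‖ ^ 2 ≤ η := by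
  classical
  set β : ℝ := min α 1 / 8 with hβ
  have hβ0 : 0 < β := by positivity
  have hβ1 : β ≤ 1 := by
    have : min α 1 ≤ 1 := min_le_right _ _
    rw [hβ]; linarith
  have hβα : 4 * β ≤ α := by
    have : min α 1 ≤ α := min_le_left _ _
    have h2 : 0 < min α 1 := by positivity
    rw [hβ]; linarith
  obtain ⟨C₁, hC₁, h₁⟩ := lev_zero
  obtain ⟨L₁, hL₁⟩ := h₁ β hβ0 hβ1
  obtain ⟨C₂, hC₂, h₂⟩ := lev_succ
  obtain ⟨L₂, hL₂⟩ := h₂ β hβ0 hβ1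
  obtain ⟨L₃, hL₃⟩ := cnt β hβ0 hβ1
  set C : ℝ := max C₁ C₂ with hC
  have hC0 : 0 < C := lt_of_lt_of_le hC₁ (le_max_left _ _)
  -- choice of L
  have hlim : Tendsto (fun L : ℕ => 2 * C / Real.log L) atTop (nhds 0) :=
    Tendsto.div_atTop tendsto_const_nhds (Real.tendsto_log_atTop.comp tendsto_natCast_atTop_atTop)
  obtain ⟨L₄, hL₄⟩ := eventually_atTop.1 ((tendsto_order.1 hlim).2 η hη)
  set L : ℕ := max (max L₁ L₂) (max L₃ (max L₄ 2)) with hL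
  have hLL₁ : L₁ ≤ L := le_trans (le_max_left _ _) (le_max_left _ _)
  have hLL₂ : L₂ ≤ L := le_trans (le_max_right _ _) (le_max_left _ _)
  have hLL₃ : L₃ ≤ L := le_trans (le_max_left _ _) (le_max_right _ _)
  have hLL₄ : L₄ ≤ L := le_trans (le_trans (le_max_left _ _) (le_max_right _ _)) (le_max_right _ _)
  have hL2 : 2 ≤ L := le_trans (le_trans (le_max_right _ _) (le_max_right _ _)) (le_max_right _ _)
  clear_value L
  have hL2' : (2 : ℝ) ≤ L := by exact_mod_cast hL2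
  have hlogL : 0 < Real.log L := Real.log_pos (by linarith)
  have hCL : 2 * C / Real.log L ≤ η := (hL₄ L hLL₄).le
  obtain ⟨Y₃, hY₃⟩ := hL₃ L hLL₃
  refine ⟨Real.exp ((L : ℝ) ^ 2), Real.one_le_exp (by positivity),
    max Y₃ (Real.exp ((L : ℝ) ^ 4)), ?_⟩
  intro Y hY
  have hYY₃ : Y₃ ≤ Y := le_trans (le_max_left _ _) hY
  have hYL : Real.exp ((L : ℝ) ^ 4) ≤ Y := le_trans (le_max_right _ _) hY
  have hY1 : 1 ≤ Y := le_trans (Real.one_le_exp (by positivity)) hYL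
  have hY0 : 0 < Y := by linarith
  have hlogY : (L : ℝ) ^ 4 ≤ Real.log Y := by
    rw [Real.le_log_iff_exp_le hY0]; exact hYL
  set K : ℕ := ⌊Y / Real.exp ((L : ℝ) ^ 2)⌋₊ with hK
  have hKY' : (K : ℝ) * Real.exp ((L : ℝ) ^ 2) ≤ Y := by
    have := Nat.floor_le (a := Y / Real.exp ((L : ℝ) ^ 2)) (by positivity)
    rwa [← hK, le_div_iff₀ (Real.exp_pos _)] at this
  have hKY : (K : ℝ) ≤ Y := by
    have h1 : (1 : ℝ) ≤ Real.exp ((L : ℝ) ^ 2) := Real.one_le_exp (by positivity)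
    have h2 : (0 : ℝ) ≤ K := by positivity
    nlinarith
  rcases Nat.eq_zero_or_pos K with hK0 | hK0
  · refine ⟨∅, ?_, ?_⟩
    · simp only [card_empty, Nat.cast_zero]
      positivity
    · rw [hK0]
      have : FK 0 = ∅ := by simp [FK]
      rw [this]
      simp [hη.le]
  have hK1 : 1 ≤ K := hK0
  obtain ⟨J, hJ, hJ'⟩ := tpart_level hL2 hlogY
  refine ⟨(FK K).filter (fun k => ∀ j ≤ J, ¬ Smjs sg P L β j k), ?_, ?_⟩
  · have h1 := hY₃ Y hYY₃ J K (hJ J le_rfl) hJ' hKY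
    have h2 : ((FK K).filter (fun k => ∀ j ≤ J, ¬ Smjs sg P L β j k)).card ≤
        ((FK K).filter (fun k => ¬ Smjs sg P L β J k)).card := by
      refine card_le_card (fun k hk => ?_)
      rw [mem_filter] at hk ⊢
      exact ⟨hk.1, hk.2 J le_rfl⟩
    have h3 : (((FK K).filter (fun k => ¬ Smjs sg P L β J k)).card : ℝ) ≤ Y ^ (4 * β) := by
      convert h1
    calc (((FK K).filter (fun k => ∀ j ≤ J, ¬ Smjs sg P L β j k)).card : ℝ)
        ≤ (((FK K).filter (fun k => ¬ Smjs sg P L β J k)).card : ℝ) := by exact_mod_cast h2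
      _ ≤ Y ^ (4 * β) := h3
      _ ≤ Y ^ α := Real.rpow_le_rpow_of_exponent_le hY1 hβα
  · set A : Finset ℤ := (FK K).filter (fun k => Smjs sg P L β 0 k) with hA
    set B : ℕ → Finset ℤ := fun j => (FK K).filter (fun k => Smjs sg P L β (j + 1) k ∧ ¬ Smjs sg P L β j k)
      with hB
    have hsub : FK K \ (FK K).filter (fun k => ∀ j ≤ J, ¬ Smjs sg P L β j k) ⊆
        A ∪ (range J).biUnion B := by
      intro k hk
      rw [Finset.mem_sdiff, mem_filter] at hk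
      obtain ⟨hkK, hk2⟩ := hk
      have hk3 : ∃ j, j ≤ J ∧ Smjs sg P L β j k := by
        by_contra hcon
        push Not at hcon
        exact hk2 ⟨hkK, fun j hj => hcon j hj⟩
      have hfs := Nat.find_spec hk3
      have hfm := fun m (hm : m < Nat.find hk3) => Nat.find_min hk3 hm
      set i := Nat.find hk3 with hi
      rw [mem_union]
      rcases Nat.eq_zero_or_pos i with h0 | h0
      · left
        rw [hA, mem_filter]
        rw [h0] at hfs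
        exact ⟨hkK, hfs.2⟩
      · right
        rw [mem_biUnion]
        obtain ⟨m, hm⟩ := Nat.exists_eq_succ_of_ne_zero h0.ne'
        refine ⟨m, ?_, ?_⟩
        · rw [mem_range]; omega
        · rw [hB, mem_filter]
          refine ⟨hkK, ?_, ?_⟩
          · rw [← Nat.succ_eq_add_one, ← hm]; exact hfs.2
          · intro hcon
            exact hfm m (by omega) ⟨by omega, hcon⟩
    have hsumA : ∑ k ∈ A, ‖GGg g Y k‖ ^ 2 ≤ C / Real.log L := by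
      have h1 := hL₁ L hLL₁ Y K (le_trans (Real.exp_le_exp.2 (by
        nlinarith [sq_nonneg ((L : ℝ) ^ 2), pow_le_pow_left₀ (by norm_num) hL2' 2])) hYL) hK1 hKY'
      have h2 : ∑ k ∈ A, ‖GGg g Y k‖ ^ 2 ≤ C₁ / Real.log L := by convert h1
      refine h2.trans ?_
      exact div_le_div_of_nonneg_right (le_max_left _ _) hlogL.le
    have hsumB : ∀ j ∈ range J, ∑ k ∈ B j, ‖GGg g Y k‖ ^ 2 ≤ C / Real.log L * (1 / 3 ^ (j + 1)) := by
      intro j hj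
      rw [mem_range] at hj
      have hlj := hJ (j + 1) (by omega)
      have hl2 : (2 : ℝ) ≤ LL L (j + 1) := by exact_mod_cast tpart_LL_ge hL2 (j + 1)
      have h1 := hL₂ L hLL₂ j Y K (by
        rw [← Real.le_log_iff_exp_le hY0]
        refine le_trans ?_ hlj
        nlinarith [sq_nonneg ((LL L (j + 1) : ℝ) ^ 2), pow_le_pow_left₀ (by norm_num) hl2 2])
        hK1 hKY
      have h2 : ∑ k ∈ B j, ‖GGg g Y k‖ ^ 2 ≤ C₂ / (3 ^ (j + 1) * Real.log L) := by convert h1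
      refine h2.trans ?_
      rw [div_mul_div_comm, mul_one, mul_comm (Real.log L)]
      exact div_le_div_of_nonneg_right (le_max_right _ _) (by positivity)
    calc ∑ k ∈ FK K \ (FK K).filter (fun k => ∀ j ≤ J, ¬ Smjs sg P L β j k), ‖GGg g Y k‖ ^ 2
        ≤ ∑ k ∈ A ∪ (range J).biUnion B, ‖GGg g Y k‖ ^ 2 :=
          sum_le_sum_of_subset_of_nonneg hsub (fun _ _ _ => by positivity)
      _ ≤ ∑ k ∈ A, ‖GGg g Y k‖ ^ 2 + ∑ k ∈ (range J).biUnion B, ‖GGg g Y k‖ ^ 2 := by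
          rw [← sum_union_inter]
          have : 0 ≤ ∑ k ∈ A ∩ (range J).biUnion B, ‖GGg g Y k‖ ^ 2 :=
            sum_nonneg (fun _ _ => by positivity)
          linarith
      _ ≤ ∑ k ∈ A, ‖GGg g Y k‖ ^ 2 + ∑ j ∈ range J, ∑ k ∈ B j, ‖GGg g Y k‖ ^ 2 := by
          gcongr
          exact tpart_biUnion _ _ _ (fun _ => by positivity)
      _ ≤ C / Real.log L + ∑ j ∈ range J, C / Real.log L * (1 / 3 ^ (j + 1)) := by
          gcongr with j hj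
          exact hsumB j hj
      _ = C / Real.log L * (1 + ∑ j ∈ range J, (1 : ℝ) / 3 ^ (j + 1)) := by
          rw [← mul_sum]; ring
      _ ≤ C / Real.log L * (1 + 1 / 2) := by
          gcongr
          exact tpart_geom J
      _ ≤ 2 * C / Real.log L := by
          rw [mul_div_assoc]
          have : 0 < C / Real.log L := by positivity
          linarith
      _ ≤ η := hCL



theorem tpart_s (sg : ℕ → ℤ) (P : ℕ → Prop) (g : ℕ → ℤ) (c : ℝ) (hb : Bdd g) (hf : Tw sg P g g) (hc : 0 < c)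
    (hR : Rich P c) {α η : ℝ} (hα : 0 < α) (hη : 0 < η) :
    ∃ h : ℝ, 1 ≤ h ∧ ∃ Y₀ : ℝ, ∀ Y : ℝ, Y₀ ≤ Y →
    ∃ U : Finset ℤ, (U.card : ℝ) ≤ Y ^ α ∧ ∑ k ∈ FK ⌊Y / h⌋₊ \ U, ‖GGg g Y k‖ ^ 2 ≤ η :=
  stpart_of sg P g (lev_zero_s sg P g c hb hf hc hR) (lev_succ_s sg P g c hb hf hc hR)
    (cnt_s sg hf.1 P) hα hη

end Pool.Agent.H266Z.MR
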