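import Pool.Agent.H266Z.MR.Defs
import Pool.Agent.H970R2.X.Cell

set_option autoImplicit false

namespace Pool.Agent.H266Z.MR
open Finset Filter Pool.Agent.H376R2.MR Pool.Agent.H970R2.X

theorem scell_ch_norm (k : ℤ) (x : ℝ) : ‖ch k x‖ = 1 := by
  unfold ch
  rw [show -((k * x : ℝ) : ℂ) * Complex.I = ((-(k * x) : ℝ) : ℂ) * Complex.I by push_cast; ring]
  exact Complex.norm_exp_ofReal_mul_I _

theorem scell_ch_sq (k : ℤ) (x : ℝ) : ch (2 * k) x = ch k x ^ 2 := by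
  unfold ch
  rw [← Complex.exp_nat_mul]
  congr 1
  push_cast
  ring

theorem scell_re (z : ℂ) (hz : ‖z‖ = 1) : 4 * z.re - 3 ≤ (z ^ 2).re := by
  have h : z.re ^ 2 + z.im ^ 2 = 1 := by
    have := Complex.sq_norm z
    rw [hz, Complex.normSq_apply] at this
    nlinarith
  have : (z ^ 2).re = z.re ^ 2 - z.im ^ 2 := by rw [sq, Complex.mul_re]; ring
  nlinarith [sq_nonneg (z.re - 1)]

theorem scell_cmp {e : ℕ → ℤ} (he : Sg e) (P : ℕ → Prop) (H v : ℕ) (k : ℤ) :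
    4 * ‖PPs e P H v k‖ - 3 * mmp P H v ≤ ‖PPp P H v (2 * k)‖ := by
  obtain ⟨u, hu, hS⟩ : ∃ u : ℂ, ‖u‖ = 1 ∧ (PPs e P H v k * u).re = ‖PPs e P H v k‖ := by
    refine ⟨Complex.exp (((-Complex.arg (PPs e P H v k) : ℝ) : ℂ) * Complex.I),
      Complex.norm_exp_ofReal_mul_I _, ?_⟩
    have h0 := Complex.norm_mul_exp_arg_mul_I (PPs e P H v k)
    have h1 : PPs e P H v k * Complex.exp (((-Complex.arg (PPs e P H v k) : ℝ) : ℂ) * Complex.I) =
        (‖PPs e P H v k‖ : ℂ) := by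
      nth_rewrite 1 [← h0]
      rw [mul_assoc, ← Complex.exp_add]
      simp
    rw [h1, Complex.ofReal_re]
  have h2 : (PPp P H v (2 * k) * u ^ 2).re ≤ ‖PPp P H v (2 * k)‖ := by
    refine (Complex.re_le_norm _).trans (le_of_eq ?_)
    rw [norm_mul, norm_pow, hu]; simp
  refine le_trans ?_ h2
  rw [← hS]
  unfold PPs PPp mmp
  rw [Finset.sum_mul, Finset.sum_mul, Complex.re_sum, Complex.re_sum, Finset.mul_sum,
    Finset.mul_sum, ← Finset.sum_sub_distrib]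
  refine Finset.sum_le_sum fun p _ => ?_
  set z : ℂ := (e p : ℂ) * ch k (Real.log p) * u with hz
  have hzn : ‖z‖ = 1 := by rw [hz, norm_mul, norm_mul, he.norm, scell_ch_norm, hu]; simp
  have hee : (e p : ℂ) ^ 2 = 1 := by rcases he p with h | h <;> simp [h]
  have e1 : (e p : ℂ) * (ch k (Real.log p) / (p : ℂ)) * u = z / ((p : ℝ) : ℂ) := by
    rw [hz]; push_cast; ring
  have e2 : ch (2 * k) (Real.log p) / (p : ℂ) * u ^ 2 = z ^ 2 / ((p : ℝ) : ℂ) := by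
    rw [hz, scell_ch_sq, mul_pow, mul_pow, hee]; push_cast; ring
  rw [e1, e2, Complex.div_ofReal_re, Complex.div_ofReal_re]
  have h3 := scell_re z hzn
  have hp : (0 : ℝ) ≤ 1 / (p : ℝ) := by positivity
  have := mul_le_mul_of_nonneg_right h3 hp
  calc 4 * (z.re / p) - 3 * (1 / (p : ℝ)) = (4 * z.re - 3) * (1 / (p : ℝ)) := by ring
    _ ≤ (z ^ 2).re * (1 / (p : ℝ)) := this
    _ = (z ^ 2).re / p := by ring

theorem cell_bound_s (e : ℕ → ℤ) (he : Sg e) (P : ℕ → Prop) (c : ℝ) (hc : 0 < c)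
    (hR : Rich P c) :
    ∃ c' : ℝ, 0 < c' ∧ c' ≤ 1 ∧ ∀ M H : ℕ, 1 ≤ H → ∃ T₀ v₀ : ℕ,
    ∀ v : ℕ, v₀ ≤ v → ∀ k : ℤ, (T₀ : ℝ) ≤ |(k : ℝ)| → |(k : ℝ)| ≤ Real.exp (M * (v : ℝ) / H) →
    ‖PPs e P H v k‖ ≤ (1 - c') * mmp P H v := by
  obtain ⟨c', h0, h1, h⟩ := cell_bound_gen P c hc hR
  refine ⟨c' / 4, by positivity, by linarith, fun M H hH => ?_⟩
  obtain ⟨T₀, v₀, h2⟩ := h (M + 1) H hH
  refine ⟨T₀, max v₀ H, fun v hv k hk1 hk2 => ?_⟩
  have hH0 : (0 : ℝ) < H := by exact_mod_cast hH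
  have hvH : (H : ℝ) ≤ v := by exact_mod_cast (le_max_right _ _).trans hv
  have habs : |((2 * k : ℤ) : ℝ)| = 2 * |(k : ℝ)| := by
    push_cast; rw [abs_mul]; norm_num
  have h3 := h2 v ((le_max_left _ _).trans hv) (2 * k) (by
    rw [habs]; have := abs_nonneg (k : ℝ); linarith) (by
    rw [habs]
    have e1 : ((M + 1 : ℕ) : ℝ) * (v : ℝ) / H = M * (v : ℝ) / H + v / H := by push_cast; ring
    rw [e1, Real.exp_add]
    have h4 : (2 : ℝ) ≤ Real.exp (v / H) := by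
      have h5 : (1 : ℝ) ≤ v / H := by rw [le_div_iff₀ hH0]; linarith
      have h6 := Real.add_one_le_exp ((v : ℝ) / H)
      linarith
    have h7 := Real.exp_pos (M * (v : ℝ) / H)
    have h8 := abs_nonneg (k : ℝ)
    nlinarith)
  have h4 := scell_cmp he P H v k
  linarith

end Pool.Agent.H266Z.MR
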