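import Pool.Agent.H970R2.X.Defs

/-! Signed version of the soft short-interval theorem of project X: the primes carry signs. -/

set_option autoImplicit false

namespace Pool.Agent.H266Z.MR

open Finset Filter Pool.Agent.H376R2.MR Pool.Agent.H970R2.X

/-- signs -/
def Sg (e : ℕ → ℤ) : Prop := ∀ p, e p = 1 ∨ e p = -1

/-- signed prime polynomial -/
noncomputable def PPs (e : ℕ → ℤ) (P : ℕ → Prop) (H v : ℕ) (k : ℤ) : ℂ :=
  ∑ p ∈ cellP P H v, (e p : ℂ) * (ch k (Real.log p) / (p : ℂ))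

def Sms (e : ℕ → ℤ) (P : ℕ → Prop) (H v₀ v₁ : ℕ) (α : ℝ) (k : ℤ) : Prop :=
  ∀ v ∈ Ico v₀ v₁, ‖PPs e P H v k‖ ≤ Real.exp (-(α * v / H))

def Smjs (e : ℕ → ℤ) (P : ℕ → Prop) (L : ℕ) (α : ℝ) (j : ℕ) (k : ℤ) : Prop :=
  Sms e P (LL L j) (LL L j ^ 2) (LL L j ^ 3) (aa α j) k

/-- twisted multiplicativity -/
def Tw (e : ℕ → ℤ) (P : ℕ → Prop) (g g' : ℕ → ℤ) : Prop :=
  Sg e ∧ ∀ p m : ℕ, p.Prime → P p → g (p * m) = -(e p * g' m)

theorem Sg.norm {e : ℕ → ℤ} (he : Sg e) (p : ℕ) : ‖(e p : ℂ)‖ = 1 := by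
  rcases he p with h | h <;> simp [h]

end Pool.Agent.H266Z.MR
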